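import Pool.Agent.K1H53.BI.Plan6

/-!
# Borel–Cantelli for the inner deviation
-/

set_option autoImplicit false

open scoped ENNReal
open Finset MeasureTheory Filter

namespace Pool.Agent.K1H18.BI5

open Pool.Agent.K1H53.BI

theorem t_BC : S_BC := by
  intro hUP hCYL ν hν
  obtain ⟨C, T₀, hC, hT⟩ := hUP ν hν
  refine ⟨C, hC, ?_⟩
  intro Ω mΩ P X hX
  haveI := hX.prob
  -- the bad property
  let G : ℕ → Finset V → Prop := fun T A =>
    ¬ devI T A ≤ C * Real.sqrt (rad T) * Real.log (rad T) ^ 2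
  have hb : ∀ T : ℕ, max T₀ 1 ≤ T →
      P {ω | X 1 ω = {0} ∧ G T (X T ω)} ≤ ENNReal.ofReal (1 / (T : ℝ) ^ 2) := by
    intro T hT1
    have h1 := hCYL ν Ω mΩ P X hX 1 T (fun _ => {0}) (G T) le_rfl (le_of_max_le_right hT1)
    have e1 : {ω | (∀ i, 1 ≤ i → i ≤ 1 → X i ω = {0}) ∧ G T (X T ω)} =
        {ω | X 1 ω = {0} ∧ G T (X T ω)} := by
      ext ω
      simp only [Set.mem_setOf_eq]
      constructor
      · rintro ⟨h, h'⟩
        exact ⟨h 1 le_rfl le_rfl, h'⟩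
      · rintro ⟨h, h'⟩
        refine ⟨fun i hi hi' => ?_, h'⟩
        obtain rfl : i = 1 := le_antisymm hi' hi
        exact h
    rw [e1] at h1
    rw [h1]
    calc P {ω | ∀ i, 1 ≤ i → i ≤ 1 → X i ω = {0}} * Phi ν (G T) ⟨{0}, [], T - 1⟩
        ≤ 1 * Phi ν (G T) ⟨{0}, [], T - 1⟩ := by
          gcongr
          exact prob_le_one
      _ = Phi ν (G T) ⟨{0}, [], T - 1⟩ := one_mul _
      _ ≤ ENNReal.ofReal (1 / (T : ℝ) ^ 2) := hT T (le_of_max_le_left hT1)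
  -- summability
  let m : ℕ := max T₀ 1
  have hsumm : Summable fun n : ℕ => 1 / ((n + m : ℕ) : ℝ) ^ 2 :=
    (summable_nat_add_iff (f := fun n : ℕ => 1 / (n : ℝ) ^ 2) m).2
      (Real.summable_one_div_nat_pow.2 (by norm_num))
  have hsum : ∑' n : ℕ, P {ω | X 1 ω = {0} ∧ G (n + m) (X (n + m) ω)} ≠ ∞ := by
    refine ne_top_of_le_ne_top (b := ∑' n : ℕ, ENNReal.ofReal (1 / ((n + m : ℕ) : ℝ) ^ 2)) ?_
      (ENNReal.tsum_le_tsum fun n => hb (n + m) (Nat.le_add_left _ _))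
    exact hsumm.tsum_ofReal_ne_top
  have hae := ae_eventually_notMem hsum
  have h0 : ∀ᵐ ω ∂P, X 1 ω = {0} := by
    rw [ae_iff]
    have hm : MeasurableSet {ω | X 1 ω = {0}} := hX.meas 1 {0}
    have : {ω | ¬ X 1 ω = {0}} = {ω | X 1 ω = {0}}ᶜ := rfl
    rw [this, prob_compl_eq_zero_iff hm]
    exact hX.start
  filter_upwards [hae, h0] with ω h1 h2
  rw [eventually_atTop] at h1 ⊢
  obtain ⟨N, hN⟩ := h1
  refine ⟨N + m, fun t ht => ?_⟩
  have h3 := hN (t - m) (by omega)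
  have h4 : t - m + m = t := by omega
  rw [h4] at h3
  by_contra h5
  exact h3 ⟨h2, h5⟩

end Pool.Agent.K1H18.BI5
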